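import Pool.Agent.Helper81.CP2.Jnt
import Pool.Agent.Helper76.ADP.Prg
import Pool.Agent.Helper63.MT.Imu

/-! COPIES OF LABELS: prefix forms with POINTWISE exponents. The copy of a partition given the window `0` of a leaf has
the same forms with the same exponents at the OLD point. -/

set_option autoImplicit false

namespace Pool.Agent.Helper81.CP3

open Finset Filter Topology Matrix Pool.Agent.Helper69.RK Pool.Agent.Helper31.EC Pool.Agent.Helper31.EC.Sp
open Pool.Agent.Helper40.EL Pool.Agent.Helper84.MT Pool.Agent.Helper89.LX Pool.Agent.Helper3.LF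
open Pool.Agent.Helper95.LF (PdM)
open Pool.Agent.Helper76.DIM (pck)
open Pool.Agent.Helper76.ADP (PreF)
open Pool.Agent.Helper81.CPY Pool.Agent.Helper81.CP2

noncomputable section

variable {S T : Sp} {M N D m v : ℕ} {E : ℕ → ℕ}

/-! ### upper bounds for the gradients at the old point -/

/-- GRADIENTS, other direction: `1 + J_zz` of the copied form at the old point is typically not larger than at the point
of the copy -/
theorem cpl_Ju {Q : S.VV M} (l : Leaf S Q E) {c : ℝ} (h0 : 0 ≤ c) (h1 : c < 1) (L : Lab S)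
    (hL : Nul S (fun k => (L k).leak (l.win c k)))
    (A : ∀ k, (L k).T.Ω → Matrix (Mon M D) (Mon M D) ℝ) (hA : ∀ᶠ k in UF, ∀ w, (L k).T.μ w ≠ 0 → PdM (A k w))
    (hm : ∀ᶠ k in UF, ∀ w w', (L k).T.μ w ≠ 0 → (L k).T.μ w' ≠ 0 → (L k).T.Z w w' → (L k).V w w' →
      l.La k ((L k).p.π w) ((L k).p.π w') → A k w = A k w') (z : Fin M) :
    ∃ K' : ℕ → ℝ, S.Sub K' ∧ Typ (S := (cpl L (wnC l c)).sp) (fun k w =>
      1 + Jq (S.dl 1 k) (A k w.2) (Q.v k w.1) z z ≤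
        K' k * (1 + Jq (S.dl 1 k) (A k w.2) (Q.v k ((L k).p.π w.2)) z z)) := by
  obtain ⟨K1, hK1, hT⟩ := cpl_pol l L hL (D := D + D) (fun k w p => 1 + Jq (S.dl 1 k) (A k w) p z z)
    (Eventually.of_forall fun k w _ => J_mem _ _ z) (κ := fun _ => 1) (S.Sub_const zero_le_one) (by
      filter_upwards [hm] with k hk w w' hw hw' hZ hV hLa _ p
      rw [hk w w' hw hw' hZ hV hLa, one_mul]) h0 h1
  obtain ⟨K2, hK2, hK21, hn⟩ := pt_near l
  refine ⟨fun k => cQ M D * K2 k ^ (2 * D) * (K1 k * (cQ M D * K2 k ^ (2 * D))),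
    (cJ_Sub hK2 hK21).mul (hK1.mul (cJ_Sub hK2 hK21)), hT.mono ?_⟩
  filter_upwards [hA, hK21, hn, hK1.1] with k g1 g3 g4 g7 w hw g6
  obtain ⟨a1, a2, a3, a4, a5, a6⟩ := wnC_agree l L k w hw
  have hP : PdM (A k w.2) := g1 w.2 a2
  have n1 : ∀ p, 0 ≤ 1 + Jq (S.dl 1 k) (A k w.2) p z z := fun p => add_nonneg zero_le_one (J_nn _ hP p z)
  rw [abs_of_nonneg (n1 _), abs_of_nonneg (n1 _)] at g6
  have b1 : 1 + Jq (S.dl 1 k) (A k w.2) (Q.v k w.1) z z ≤ cQ M D * K2 k ^ (2 * D) *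
      (1 + Jq (S.dl 1 k) (A k w.2) (l.F k w.1 (l.Y.v k w.1)) z z) :=
    J_comp hP (S.dl_pos 1 k) g3 _ _ (fun i => (g4 _ a1 i).1) z
  have b2 : 1 + Jq (S.dl 1 k) (A k w.2) (l.F k ((L k).p.π w.2) (l.Y.v k ((L k).p.π w.2))) z z ≤
      cQ M D * K2 k ^ (2 * D) * (1 + Jq (S.dl 1 k) (A k w.2) (Q.v k ((L k).p.π w.2)) z z) :=
    J_comp hP (S.dl_pos 1 k) g3 _ _ (fun i => (g4 _ a3 i).2) z
  have c0 : 0 ≤ cQ M D * K2 k ^ (2 * D) := mul_nonneg (zero_le_one.trans (cQ_one M D)) (pow_nonneg (by linarith) _)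
  have b3 := mul_le_mul_of_nonneg_left (g6.trans (mul_le_mul_of_nonneg_left b2 g7)) c0
  refine (b1.trans b3).trans (le_of_eq ?_)
  ring

/-- the same for a choice of coordinates -/
theorem cpl_Juk {Q : S.VV M} (l : Leaf S Q E) {c : ℝ} (h0 : 0 ≤ c) (h1 : c < 1) (L : Lab S)
    (hL : Nul S (fun k => (L k).leak (l.win c k))) (σ : Fin m → Fin M)
    (A : ∀ k, (L k).T.Ω → Matrix (Mon m D) (Mon m D) ℝ) (hA : ∀ᶠ k in UF, ∀ w, (L k).T.μ w ≠ 0 → PdM (A k w))
    (hm : ∀ᶠ k in UF, ∀ w w', (L k).T.μ w ≠ 0 → (L k).T.μ w' ≠ 0 → (L k).T.Z w w' → (L k).V w w' →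
      l.La k ((L k).p.π w) ((L k).p.π w') → A k w = A k w') (z : Fin m) :
    ∃ K' : ℕ → ℝ, S.Sub K' ∧ Typ (S := (cpl L (wnC l c)).sp) (fun k w =>
      1 + Jq (S.dl 1 k) (A k w.2) ((pck Q σ).v k w.1) z z ≤
        K' k * (1 + Jq (S.dl 1 k) (A k w.2) ((pck Q σ).v k ((L k).p.π w.2)) z z)) :=
  cpl_Ju (lpk l σ) h0 h1 L hL A hA hm z

/-- small gradients at the point of the copy are small at the old point: `u` any nonnegative function of the point of the
copy; one direction -/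
theorem jz_old {Q : S.VV M} (l : Leaf S Q E) {c : ℝ} (h0 : 0 ≤ c) (h1 : c < 1) (L : Lab S)
    (hL : Nul S (fun k => (L k).leak (l.win c k))) (σ : Fin m → Fin M)
    (A : ∀ k, (L k).T.Ω → Matrix (Mon m D) (Mon m D) ℝ) (hA : ∀ᶠ k in UF, ∀ w, (L k).T.μ w ≠ 0 → PdM (A k w))
    (hm : ∀ᶠ k in UF, ∀ w w', (L k).T.μ w ≠ 0 → (L k).T.μ w' ≠ 0 → (L k).T.Z w w' → (L k).V w w' →
      l.La k ((L k).p.π w) ((L k).p.π w') → A k w = A k w') (z : Fin m) (u : ∀ k, (L k).T.Ω → ℝ)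
    (hs : ∀ η : ℝ, 0 < η → Typ (S := L.sp) fun k (w : (L k).T.Ω) =>
      1 + Jq (S.dl 1 k) (A k w) ((pck Q σ).v k ((L k).p.π w)) z z ≤ 2 ^ (2 * (u k w + η) * (S.F k).n)) (η : ℝ)
    (hη : 0 < η) : Typ (S := (cpl L (wnC l c)).sp) (fun k w =>
      1 + Jq (S.dl 1 k) (A k w.2) ((pck Q σ).v k w.1) z z ≤ 2 ^ (2 * (u k w.2 + η) * (S.F k).n)) := by
  obtain ⟨K, hK, hT⟩ := cpl_Juk l h0 h1 L hL σ A hA hm z
  have h2 : Typ (S := (cpl L (wnC l c)).sp) fun k w =>
      1 + Jq (S.dl 1 k) (A k w.2) ((pck Q σ).v k ((L k).p.π w.2)) z z ≤ 2 ^ (2 * (u k w.2 + η / 2) * (S.F k).n) :=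
    (cpl L (wnC l c)).p2.typ_iff.2 (hs (η / 2) (by linarith))
  refine (hT.and h2).mono ?_
  filter_upwards [hK.eventually_le hη, hA] with k hk hk0 w hw hw'
  have hP : PdM (A k w.2) := hk0 w.2 (wnC_agree l L k w hw).2.1
  have h3 : 0 ≤ 1 + Jq (S.dl 1 k) (A k w.2) ((pck Q σ).v k ((L k).p.π w.2)) z z :=
    add_nonneg zero_le_one (J_nn _ hP _ z)
  refine hw'.1.trans ((mul_le_mul (show K k ≤ 2 ^ (η * (S.F k).n) by linarith) hw'.2 h3 (by positivity)).trans
    (le_of_eq ?_))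
  rw [← Real.rpow_add (by norm_num)]
  congr 1
  ring

/-- TRACES: small traces at the point of the copy are small at the old point -/
theorem tr_old {Q : S.VV M} (l : Leaf S Q E) {c : ℝ} (h0 : 0 ≤ c) (h1 : c < 1) (L : Lab S)
    (hL : Nul S (fun k => (L k).leak (l.win c k))) (σ : Fin m → Fin M)
    (A : ∀ k, (L k).T.Ω → Matrix (Mon m D) (Mon m D) ℝ) (hA : ∀ᶠ k in UF, ∀ w, (L k).T.μ w ≠ 0 → PdM (A k w))
    (hm : ∀ᶠ k in UF, ∀ w w', (L k).T.μ w ≠ 0 → (L k).T.μ w' ≠ 0 → (L k).T.Z w w' → (L k).V w w' →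
      l.La k ((L k).p.π w) ((L k).p.π w') → A k w = A k w') (u : ∀ k, (L k).T.Ω → ℝ)
    (hu : ∀ᶠ k in UF, ∀ w, (L k).T.μ w ≠ 0 → 0 ≤ u k w)
    (hs : ∀ η : ℝ, 0 < η → Typ (S := L.sp) fun k (w : (L k).T.Ω) =>
      (Jq (S.dl 1 k) (A k w) ((pck Q σ).v k ((L k).p.π w))).trace ≤ 2 ^ (2 * (u k w + η) * (S.F k).n)) (η : ℝ)
    (hη : 0 < η) : Typ (S := (cpl L (wnC l c)).sp) (fun k w =>
      (Jq (S.dl 1 k) (A k w.2) ((pck Q σ).v k w.1)).trace ≤ 2 ^ (2 * (u k w.2 + η) * (S.F k).n)) := by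
  have key : ∀ z : Fin m, Typ (S := (cpl L (wnC l c)).sp) (fun k w =>
      1 + Jq (S.dl 1 k) (A k w.2) ((pck Q σ).v k w.1) z z ≤ 2 ^ (2 * (u k w.2 + η / 2) * (S.F k).n)) := by
    intro z
    refine jz_old l h0 h1 L hL σ A hA hm z u ?_ (η / 2) (by linarith)
    intro e he
    refine (hs (e / 2) (by linarith)).mono ?_
    filter_upwards [hA, hu, S.Sub_const (show (0 : ℝ) ≤ 2 by norm_num) |>.eventually_le he] with k g1 g2 g3 w hw g4
    have hP : PdM (A k w) := g1 w hw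
    have h3 : Jq (S.dl 1 k) (A k w) ((pck Q σ).v k ((L k).p.π w)) z z ≤
        (Jq (S.dl 1 k) (A k w) ((pck Q σ).v k ((L k).p.π w))).trace :=
      Finset.single_le_sum (f := fun i => Jq (S.dl 1 k) (A k w) ((pck Q σ).v k ((L k).p.π w)) i i)
        (fun i _ => J_nn _ hP _ i) (Finset.mem_univ z)
    have hn := (S.F k).pos
    have h4 : (1 : ℝ) ≤ 2 ^ (2 * (u k w + e / 2) * (S.F k).n) := by
      apply Real.one_le_rpow (by norm_num)
      have := g2 w hw
      positivity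
    have h5 : (2 : ℝ) * 2 ^ (2 * (u k w + e / 2) * (S.F k).n) ≤ 2 ^ (2 * (u k w + e) * (S.F k).n) := by
      have e1 : (2 : ℝ) ^ (2 * (u k w + e) * (S.F k).n) =
          2 ^ (e * (S.F k).n) * 2 ^ (2 * (u k w + e / 2) * (S.F k).n) := by
        rw [← Real.rpow_add (by norm_num)]
        congr 1
        ring
      rw [e1]
      apply mul_le_mul_of_nonneg_right _ (by positivity)
      linarith
    refine le_trans ?_ h5
    linarith
  have h2 : Typ (S := (cpl L (wnC l c)).sp) (fun k w => ∀ z : Fin m,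
      1 + Jq (S.dl 1 k) (A k w.2) ((pck Q σ).v k w.1) z z ≤ 2 ^ (2 * (u k w.2 + η / 2) * (S.F k).n)) :=
    Pool.Agent.Helper63.MT.typ_all key
  refine h2.mono ?_
  filter_upwards [hA, S.Sub_const (show (0 : ℝ) ≤ m by positivity) |>.eventually_le hη] with k g1 g3 w hw g4
  have e2 : (Jq (S.dl 1 k) (A k w.2) ((pck Q σ).v k w.1)).trace ≤
      ∑ _z : Fin m, 2 ^ (2 * (u k w.2 + η / 2) * (S.F k).n) := by
    apply Finset.sum_le_sum
    intro z _
    have := g4 z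
    show Jq (S.dl 1 k) (A k w.2) ((pck Q σ).v k w.1) z z ≤ _
    linarith
  rw [Finset.sum_const, Finset.card_univ, Fintype.card_fin, nsmul_eq_mul] at e2
  refine e2.trans ?_
  have e1 : (2 : ℝ) ^ (2 * (u k w.2 + η) * (S.F k).n) =
      2 ^ (η * (S.F k).n) * 2 ^ (2 * (u k w.2 + η / 2) * (S.F k).n) := by
    rw [← Real.rpow_add (by norm_num)]
    congr 1
    ring
  rw [e1]
  apply mul_le_mul_of_nonneg_right _ (by positivity)
  linarith

/-! ### the copy of the prefix forms -/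

/-- a partition which is known to the point has no leak at the point -/
theorem leak_vis {V1 : ∀ k, Setoid (S.F k).Ω} {B : Part S} (hV : PLe (fun k => fc (V1 k)) B) :
    Nul S (fun k => ((Lab.ofZ V1) k).leak (B k)) := by
  have hV' : Nul S (fun k => h (fc (V1 k)) (B k)) := hV
  apply hV'.of_le (Eventually.of_forall fun k => FLab.leak_nonneg _ _)
  refine Eventually.of_forall fun k => ?_
  have h1 : ((Lab.ofZ V1) k).leak (B k) ≤ h ((Lab.ofZ V1) k).v (((Lab.ofZ V1) k).p.map (B k)) := I_le_h_left _ _ _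
  have h2 := ((Lab.ofZ V1) k).p.h_map (fc (V1 k)) (B k)
  exact h1.trans (le_of_eq h2)

section

variable {Q : S.VV N} (l : Leaf S Q E) {V1 : ∀ k, Setoid (S.F k).Ω} {τ : Fin N → Fin N} {D : Fin N → ℕ}
  {A : ∀ (j : Fin N) (k : ℕ), (S.F k).Ω → Matrix (Mon ((j : ℕ) + 1) (D j)) (Mon ((j : ℕ) + 1) (D j)) ℝ}
  {w : ∀ k, (S.F k).Ω → Fin N → ℝ}

/-- PREFIX FORMS AT THE OLD POINT: the same forms and the same exponents (functions of the copied partition) -/
theorem preF_old (x : PreF V1 Q τ v D A w) (hL : Nul S (fun k => ((Lab.ofZ V1) k).leak (l.win 0 k)))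
    (hP : Nul S (fun k => ((Lab.ofZ V1) k).leak (pcd Q k))) :
    PreF (S := cR0 l (Lab.ofZ V1)) (cV0 l (Lab.ofZ V1)) ((cP0 l (Lab.ofZ V1)).vv Q) τ v D (fun j k u => A j k u.2)
      (fun k u => w k u.2) where
  D1 := x.D1
  pd := fun j hj => by
    filter_upwards [x.pd j hj] with k hk u hu
    exact hk u.2 (wnC_agree l (Lab.ofZ V1) k u hu).2.1
  ms := fun j hj => by
    filter_upwards [x.ms j hj] with k hk u u' hu hu' hZ hV
    exact hk u.2 u'.2 (wnC_agree l (Lab.ofZ V1) k u hu).2.1 (wnC_agree l (Lab.ofZ V1) k u' hu').2.1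
      (((cpl (Lab.ofZ V1) (wnC l 0)).p2.hZ k u u' hu hu').mp hZ) hV
  msw := fun j hj => by
    filter_upwards [x.msw j hj] with k hk u u' hu hu' hZ hV
    exact hk u.2 u'.2 (wnC_agree l (Lab.ofZ V1) k u hu).2.1 (wnC_agree l (Lab.ofZ V1) k u' hu').2.1
      (((cpl (Lab.ofZ V1) (wnC l 0)).p2.hZ k u u' hu hu').mp hZ) hV
  w01 := fun j hj => by
    filter_upwards [x.w01 j hj] with k hk u hu
    exact hk u.2 (wnC_agree l (Lab.ofZ V1) k u hu).2.1
  sm := fun j hj η hη => sm_old l le_rfl one_pos (Lab.ofZ V1) hL (pre τ j) (A j) (x.pd j hj) (by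
      filter_upwards [x.ms j hj] with k hk u u' hu hu' hZ hV _
      exact hk u u' hu hu' hZ hV) (x.sm j hj) η hη
  lo := fun j hj η hη => by
    simp only [Matrix.add_apply, Matrix.one_apply_eq]
    exact big_old l le_rfl one_pos (Lab.ofZ V1) (pre τ j) (A j) (x.pd j hj) (by
      filter_upwards [x.ms j hj] with k hk u u' hu hu' hZ hV _
      exact hk u u' hu hu' hZ hV) (Fin.last j) (fun k u => w k u j) (fun e he => by
      have h1 := x.lo j hj e he
      simp only [Matrix.add_apply, Matrix.one_apply_eq] at h1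
      exact h1) η hη
  hi := fun j hj η hη => tr_old l le_rfl one_pos (Lab.ofZ V1) hL (pre τ j) (A j) (x.pd j hj) (by
      filter_upwards [x.ms j hj] with k hk u u' hu hu' hZ hV _
      exact hk u u' hu hu' hZ hV) (fun k u => w k u j) (by
      filter_upwards [x.w01 j hj] with k hk u hu using (hk u hu).1) (x.hi j hj) η hη
  fu := fun ε hε => by
    have hP' : Tendsto (fun k => ((Lab.ofZ V1) k).leak (pcd Q k) / (S.F k).n) UF (𝓝 0) := hP
    filter_upwards [x.fu (ε / 2) (by linarith), hP'.eventually (gt_mem_nhds (show 0 < ε / 2 by linarith))]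
      with k h1 h2
    have hn := (S.F k).pos
    rw [div_lt_iff₀ hn] at h2
    have g4 := cpLab_full (Lab.ofZ V1) (wnC l 0) k (pcd Q k)
    have e1 : (cpLab (Lab.ofZ V1) (wnC l 0) k).p.map (pcd Q k) =
        pcd ((cP0 l (Lab.ofZ V1)).vv Q) k := by
      rw [pcd_pull]
      rfl
    rw [e1] at g4
    have g5 : (S.F k).e (Setoid.ker (Q.cellv 1 k)) (V1 k ⊓ (S.F k).Z) =
        h (((Lab.ofZ V1) k).p.map (pcd Q k)) ((Lab.ofZ V1) k).v := by
      rw [← h_fc]
      rfl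
    have g6 : h (pcd ((cP0 l (Lab.ofZ V1)).vv Q) k) (cpLab (Lab.ofZ V1) (wnC l 0) k).v =
        ((cR0 l (Lab.ofZ V1)).F k).e (Setoid.ker (((cP0 l (Lab.ofZ V1)).vv Q).cellv 1 k))
          (cV0 l (Lab.ofZ V1) k ⊓ ((cR0 l (Lab.ofZ V1)).F k).Z) := by
      rw [← h_fc]
      rfl
    have g7 : ∑ u, ((cR0 l (Lab.ofZ V1)).F k).μ u * ∑ j ∈ univ.filter (fun j : Fin N => v ≤ j), w k u.2 j =
        ∑ ω, (S.F k).μ ω * ∑ j ∈ univ.filter (fun j : Fin N => v ≤ j), w k ω j :=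
      Pool.Agent.Helper89.LX.sum_push ((cpl (Lab.ofZ V1) (wnC l 0)).p2.fp k)
        (fun ω => ∑ j ∈ univ.filter (fun j : Fin N => v ≤ j), w k ω j)
    rw [← g6, g7]
    rw [g5] at h1
    have e2 : ((cR0 l (Lab.ofZ V1)).F k).n = (S.F k).n := rfl
    rw [e2]
    have e3 : (N - ε) * (S.F k).n = (N - ε / 2) * (S.F k).n - ε / 2 * (S.F k).n := by ring
    rw [e3]
    refine le_trans ?_ (add_le_add g4 le_rfl)
    linarith

end

/-! ### extensions and other versions -/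

section

variable {V1 : ∀ k, Setoid (S.F k).Ω} {Q : S.VV N} {τ : Fin N → Fin N} {D : Fin N → ℕ}
  {A : ∀ (j : Fin N) (k : ℕ), (S.F k).Ω → Matrix (Mon ((j : ℕ) + 1) (D j)) (Mon ((j : ℕ) + 1) (D j)) ℝ}
  {w : ∀ k, (S.F k).Ω → Fin N → ℝ}

/-- extensions -/
theorem preF_pull (x : PreF V1 Q τ v D A w) (p : Pj T S) :
    PreF (p.pb V1) (p.vv Q) τ v D (fun j k ω => A j k (p.π k ω)) (fun k ω => w k (p.π k ω)) where
  D1 := x.D1
  pd := fun j hj => by
    filter_upwards [x.pd j hj] with k hk ω hω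
    exact hk _ (p.supp k ω hω)
  ms := fun j hj => by
    filter_upwards [x.ms j hj] with k hk ω ω' hω hω' hZ hV
    exact hk _ _ (p.supp k ω hω) (p.supp k ω' hω') ((p.hZ k ω ω' hω hω').mp hZ) hV
  msw := fun j hj => by
    filter_upwards [x.msw j hj] with k hk ω ω' hω hω' hZ hV
    exact hk _ _ (p.supp k ω hω) (p.supp k ω' hω') ((p.hZ k ω ω' hω hω').mp hZ) hV
  w01 := fun j hj => by
    filter_upwards [x.w01 j hj] with k hk ω hω
    exact hk _ (p.supp k ω hω)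
  sm := fun j hj η hη => by
    have h1 := p.typ_iff.2 (x.sm j hj η hη)
    refine h1.mono (Eventually.of_forall fun k ω _ h2 => ?_)
    have e1 : T.dl 1 k = S.dl 1 k := by
      unfold Sp.dl
      rw [p.hn k]
    rw [e1, p.hn k]
    exact h2
  lo := fun j hj η hη => by
    have h1 := p.typ_iff.2 (x.lo j hj η hη)
    refine h1.mono (Eventually.of_forall fun k ω _ h2 => ?_)
    have e1 : T.dl 1 k = S.dl 1 k := by
      unfold Sp.dl
      rw [p.hn k]
    rw [e1, p.hn k]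
    exact h2
  hi := fun j hj η hη => by
    have h1 := p.typ_iff.2 (x.hi j hj η hη)
    refine h1.mono (Eventually.of_forall fun k ω _ h2 => ?_)
    have e1 : T.dl 1 k = S.dl 1 k := by
      unfold Sp.dl
      rw [p.hn k]
    rw [e1, p.hn k]
    exact h2
  fu := fun ε hε => by
    filter_upwards [x.fu ε hε] with k h1
    have e1 := (p.fp k).h_map (fc (Setoid.ker (Q.cellv 1 k))) (fc (V1 k))
    have e2 : (p.fp k).map (fc (Setoid.ker (Q.cellv 1 k))) = fc (Setoid.ker ((p.vv Q).cellv 1 k)) := by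
      have e3 : (p.vv Q).cellv 1 k = fun ω => Q.cellv 1 k (p.π k ω) := vv_cellv p Q 1 k
      rw [e3]
      rfl
    have e4 : (p.fp k).map (fc (V1 k)) = fc (p.pb V1 k) := rfl
    rw [e2, e4, h_fc, h_fc] at e1
    have g7 : ∑ u, (T.F k).μ u * ∑ j ∈ univ.filter (fun j : Fin N => v ≤ j), w k (p.π k u) j =
        ∑ ω, (S.F k).μ ω * ∑ j ∈ univ.filter (fun j : Fin N => v ≤ j), w k ω j :=
      Pool.Agent.Helper89.LX.sum_push (p.fp k) (fun ω => ∑ j ∈ univ.filter (fun j : Fin N => v ≤ j), w k ω j)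
    rw [e1, g7, p.hn k]
    exact h1

/-- other versions of the point, of the partition, of the forms and of the exponents on the support -/
theorem preF_congr {V' : ∀ k, Setoid (S.F k).Ω} {Q' : S.VV N}
    {A' : ∀ (j : Fin N) (k : ℕ), (S.F k).Ω → Matrix (Mon ((j : ℕ) + 1) (D j)) (Mon ((j : ℕ) + 1) (D j)) ℝ}
    {w' : ∀ k, (S.F k).Ω → Fin N → ℝ} (x : PreF V1 Q τ v D A w)
    (hQ : ∀ᶠ k in UF, ∀ ω, (S.F k).μ ω ≠ 0 → Q'.v k ω = Q.v k ω)
    (hV : ∀ᶠ k in UF, ∀ ω ω', (S.F k).μ ω ≠ 0 → (S.F k).μ ω' ≠ 0 → (S.F k).Z ω ω' → (V' k ω ω' ↔ V1 k ω ω'))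
    (hA : ∀ j : Fin N, v ≤ j → ∀ᶠ k in UF, ∀ ω, (S.F k).μ ω ≠ 0 → A' j k ω = A j k ω)
    (hw : ∀ j : Fin N, v ≤ j → ∀ᶠ k in UF, ∀ ω, (S.F k).μ ω ≠ 0 → w' k ω j = w k ω j) :
    PreF V' Q' τ v D A' w' where
  D1 := x.D1
  pd := fun j hj => by
    filter_upwards [x.pd j hj, hA j hj] with k hk h1 ω hω
    rw [h1 ω hω]
    exact hk ω hω
  ms := fun j hj => by
    filter_upwards [x.ms j hj, hA j hj, hV] with k hk h1 h2 ω ω' hω hω' hZ h3
    rw [h1 ω hω, h1 ω' hω']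
    exact hk ω ω' hω hω' hZ ((h2 ω ω' hω hω' hZ).1 h3)
  msw := fun j hj => by
    filter_upwards [x.msw j hj, hw j hj, hV] with k hk h1 h2 ω ω' hω hω' hZ h3
    rw [h1 ω hω, h1 ω' hω']
    exact hk ω ω' hω hω' hZ ((h2 ω ω' hω hω' hZ).1 h3)
  w01 := fun j hj => by
    filter_upwards [x.w01 j hj, hw j hj] with k hk h1 ω hω
    rw [h1 ω hω]
    exact hk ω hω
  sm := fun j hj η hη => by
    refine (x.sm j hj η hη).mono ?_
    filter_upwards [hQ, hA j hj] with k h1 h2 ω hω h3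
    rw [h2 ω hω]
    have e2 : (pck Q' (pre τ j)).v k ω = (pck Q (pre τ j)).v k ω := by
      funext i
      show Q'.v k ω _ = Q.v k ω _
      rw [h1 ω hω]
    rw [e2]
    exact h3
  lo := fun j hj η hη => by
    refine (x.lo j hj η hη).mono ?_
    filter_upwards [hQ, hA j hj, hw j hj] with k h1 h2 h5 ω hω h3
    rw [h2 ω hω, h5 ω hω]
    have e2 : (pck Q' (pre τ j)).v k ω = (pck Q (pre τ j)).v k ω := by
      funext i
      show Q'.v k ω _ = Q.v k ω _
      rw [h1 ω hω]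
    rw [e2]
    exact h3
  hi := fun j hj η hη => by
    refine (x.hi j hj η hη).mono ?_
    filter_upwards [hQ, hA j hj, hw j hj] with k h1 h2 h5 ω hω h3
    rw [h2 ω hω, h5 ω hω]
    have e2 : (pck Q' (pre τ j)).v k ω = (pck Q (pre τ j)).v k ω := by
      funext i
      show Q'.v k ω _ = Q.v k ω _
      rw [h1 ω hω]
    rw [e2]
    exact h3
  fu := fun ε hε => by
    have hw' : ∀ᶠ k in UF, ∀ j : Fin N, v ≤ j → ∀ ω, (S.F k).μ ω ≠ 0 → w' k ω j = w k ω j := by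
      rw [Filter.eventually_all]
      intro j
      by_cases hj : v ≤ j
      · filter_upwards [hw j hj] with k hk _
        exact hk
      · exact Eventually.of_forall fun k h => absurd h hj
    filter_upwards [x.fu ε hε, hQ, hV, hw'] with k h1 h2 h3 h4
    have e0 : (fc (V' k) : FL (S.F k)) = fc (V1 k) := by
      apply le_antisymm
      · exact fc_le fun ω ω' a b c h3' => (h3 ω ω' a b c).2 h3'
      · exact fc_le fun ω ω' a b c h3' => (h3 ω ω' a b c).1 h3'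
    have e1 : (fc (Setoid.ker (Q'.cellv 1 k)) : FL (S.F k)) = fc (Setoid.ker (Q.cellv 1 k)) := by
      have e2 : ∀ ω, (S.F k).μ ω ≠ 0 → Q'.cellv 1 k ω = Q.cellv 1 k ω := by
        intro ω hω
        funext i
        show ⌊Q'.v k ω i / S.dl 1 k⌋ = ⌊Q.v k ω i / S.dl 1 k⌋
        rw [h2 ω hω]
      apply le_antisymm
      · apply fc_le
        intro ω ω' a b _ h3
        exact (e2 ω a).trans (Eq.trans h3 (e2 ω' b).symm)
      · apply fc_le
        intro ω ω' a b _ h3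
        exact (e2 ω a).symm.trans (Eq.trans h3 (e2 ω' b))
    have e3 : (S.F k).e (Setoid.ker (Q'.cellv 1 k)) (V' k ⊓ (S.F k).Z) =
        (S.F k).e (Setoid.ker (Q.cellv 1 k)) (V1 k ⊓ (S.F k).Z) := by
      rw [← h_fc, ← h_fc, e0, e1]
    have e4 : ∑ ω, (S.F k).μ ω * ∑ j ∈ univ.filter (fun j : Fin N => v ≤ j), w' k ω j =
        ∑ ω, (S.F k).μ ω * ∑ j ∈ univ.filter (fun j : Fin N => v ≤ j), w k ω j := by
      apply Finset.sum_congr rfl
      intro ω _
      by_cases hω : (S.F k).μ ω = 0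
      · rw [hω, zero_mul, zero_mul]
      · congr 1
        apply Finset.sum_congr rfl
        intro j hj
        exact h4 j (Finset.mem_filter.mp hj).2 ω hω
    rw [e3, e4]
    exact h1

/-- PREFIX FORMS OF THE COPY IN THE JOINT SPACE (87's `exists_cpt`) -/
theorem preF_joint (l : Leaf S Q E) {W : Sp} (p : Pj W S) (q : Pj W (cLb l V1).sp)
    (hq : ∀ k u, (W.F k).μ u ≠ 0 → (cLb l V1 k).p.π (q.π k u) = p.π k u) (x : PreF V1 Q τ v D A w)
    (hL : Nul S (fun k => ((Lab.ofZ V1) k).leak (l.win 0 k))) (hP : Nul S (fun k => ((Lab.ofZ V1) k).leak (pcd Q k))) :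
    PreF (S := W) (q.pb (cLb l V1).V) (p.vv Q) τ v D (fun j k u => A j k ((q.π k u : _ × _).2))
      (fun k u => w k ((q.π k u : _ × _).2)) := by
  have h1 := preF_pull (preF_old l x hL hP) q
  refine preF_congr h1 (Eventually.of_forall fun k u hu => ?_) (Eventually.of_forall fun _ _ _ _ _ _ => Iff.rfl)
    (fun _ _ => Eventually.of_forall fun _ _ _ => rfl) (fun _ _ => Eventually.of_forall fun _ _ _ => rfl)
  show Q.v k (p.π k u) = Q.v k ((q.π k u : _ × _).1)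
  have h2 : (q.π k u : _ × _).1 = p.π k u := hq k u hu
  rw [h2]

end

end

end Pool.Agent.Helper81.CP3
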