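import Pool.Agent.Helper81.CP3.Pre

/-! COPIES OF LABELS: ROWS WITH POINTWISE EXPONENTS AT THE OLD POINT. The copy of a partition given the window `0` of a
leaf, together with a finite code (one node of the cell), has the translated rows with the same exponents, the same
columns and the same degree at the OLD point. -/

set_option autoImplicit false

namespace Pool.Agent.Helper81.CP3

open Finset Filter Topology Matrix Pool.Agent.Helper69.RK Pool.Agent.Helper31.EC Pool.Agent.Helper31.EC.Sp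
open Pool.Agent.Helper40.EL Pool.Agent.Helper84.MT Pool.Agent.Helper89.LX Pool.Agent.Helper3.LF
open Pool.Agent.Helper95.LF (PdM)
open Pool.Agent.Helper76.DIM (pck ent_fin)
open Pool.Agent.Helper76.ADP (PreF RowsF rmx)
open Pool.Agent.Helper76.RL (trp eval_trp pderiv_trp trp_deg)
open Pool.Agent.Helper81.CPY Pool.Agent.Helper81.CP2

noncomputable section

variable {S T : Sp} {M N D m v q : ℕ} {E : ℕ → ℕ}

/-! ### the size of a polynomial on a cell -/

theorem ph_mem (P : MvPolynomial (Fin M) ℝ) (hP : P.totalDegree ≤ D) (r : ℝ) :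
    (fun p => ph D P r p) ∈ polyAl M 1 (D + D) := by
  unfold ph
  apply (pol_alg M).sum
  intro j _
  have h1 : (fun p => MvPolynomial.eval p P) ∈ polyAl M 1 D := ⟨P, by rw [one_mul]; exact hP, rfl⟩
  have h2 := shift_mem ((pol_alg M).mul D D _ _ h1 h1) (fun i => r * nod D (j i))
  have e1 : (fun p : Fin M → ℝ => MvPolynomial.eval (nodp D p r j) P ^ 2) =
      fun p => (fun p => MvPolynomial.eval p P * MvPolynomial.eval p P) (fun i => p i + r * nod D (j i)) := by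
    funext p
    show MvPolynomial.eval (nodp D p r j) P ^ 2 = MvPolynomial.eval (fun i => p i + r * nod D (j i)) P *
      MvPolynomial.eval (fun i => p i + r * nod D (j i)) P
    rw [sq]
    rfl
  rw [e1]
  exact h2

theorem nodp_near {r : ℝ} (hr : 0 ≤ r) (p : Fin M → ℝ) (j : Fin M → Fin (D + 1)) (i : Fin M) :
    |nodp D p r j i - p i| ≤ r := by
  have h1 : nodp D p r j i - p i = r * nod D (j i) := by
    show p i + r * nod D (j i) - p i = _
    ring
  rw [h1, abs_of_nonneg (mul_nonneg hr (nod_nonneg _ _))]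
  have h2 := nod_le D (j i) (Nat.lt_succ_iff.mp (j i).2)
  calc r * nod D (j i) ≤ r * 1 := mul_le_mul_of_nonneg_left h2 hr
    _ = r := mul_one r

/-- the size from a bound at the nodes -/
theorem ph_le_of (P : MvPolynomial (Fin M) ℝ) {r B : ℝ} {p : Fin M → ℝ}
    (h : ∀ j : Fin M → Fin (D + 1), |MvPolynomial.eval (nodp D p r j) P| ≤ B) : ph D P r p ≤ nn M D * B ^ 2 := by
  unfold ph
  have h1 : ∀ j ∈ (Finset.univ : Finset (Fin M → Fin (D + 1))), MvPolynomial.eval (nodp D p r j) P ^ 2 ≤ B ^ 2 := by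
    intro j _
    rw [← sq_abs (MvPolynomial.eval (nodp D p r j) P)]
    exact pow_le_pow_left₀ (abs_nonneg _) (h j) 2
  have h2 := Finset.sum_le_card_nsmul _ _ _ h1
  rw [nsmul_eq_mul, card_nodes] at h2
  exact h2

/-- comparison of the sizes at neighbouring points -/
theorem ph_cM (P : MvPolynomial (Fin M) ℝ) (hP : P.totalDegree ≤ D) {r K : ℝ} (hr : 0 < r) (hK : 1 ≤ K)
    (p p' : Fin M → ℝ) (hp : ∀ i, |p' i - p i| + r ≤ K * r) : ph D P r p' ≤ cM M D K * ph D P r p :=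
  ph_comp P hP r r K hr hr.le hK p p' hp

section cmp

variable {Q : S.VV M} (l : Leaf S Q E) {c : ℝ} (h0 : 0 ≤ c) (h1 : c < 1) (L : Lab S)
  (P : ∀ k, (L k).T.Ω → MvPolynomial (Fin M) ℝ)
  (hP : ∀ᶠ k in UF, ∀ w, (L k).T.μ w ≠ 0 → (P k w).totalDegree ≤ D)
  (hm : ∀ᶠ k in UF, ∀ w w', (L k).T.μ w ≠ 0 → (L k).T.μ w' ≠ 0 → (L k).T.Z w w' → (L k).V w w' →
    l.La k ((L k).p.π w) ((L k).p.π w') → P k w = P k w')

include h0 h1 hP hm

/-- SIZES: at the point of the copy not larger than at the old point -/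
theorem cplP' : ∃ K' : ℕ → ℝ, S.Sub K' ∧ Typ (S := (cpl L (wnC l c)).sp) (fun k w =>
      ph D (P k w.2) (S.dl 1 k) (Q.v k ((L k).p.π w.2)) ≤ K' k * ph D (P k w.2) (S.dl 1 k) (Q.v k w.1)) := by
  obtain ⟨K1, hK1, hT⟩ := cpl_pol' l L (D := D + D) (fun k w p => ph D (P k w) (S.dl 1 k) p) (by
    filter_upwards [hP] with k hk w hw
    exact ph_mem _ (hk w hw) _) (κ := fun _ => 1) (S.Sub_const zero_le_one) (by
      filter_upwards [hm] with k hk w w' hw hw' hZ hV hLa _ p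
      rw [hk w w' hw hw' hZ hV hLa, one_mul]) h0 h1
  obtain ⟨K2, hK2, hK21, hn⟩ := pt_near l
  refine ⟨fun k => cM M D (K2 k) * (K1 k * cM M D (K2 k)), (cM_Sub M D hK2 hK21).mul
    (hK1.mul (cM_Sub M D hK2 hK21)), hT.mono ?_⟩
  filter_upwards [hP, hK21, hn, hK1.1] with k g1 g3 g4 g7 w hw g6
  obtain ⟨a1, a2, a3, a4, a5, a6⟩ := wnC_agree l L k w hw
  have hD := g1 w.2 a2
  rw [abs_of_nonneg (ph_nonneg _ _ _), abs_of_nonneg (ph_nonneg _ _ _)] at g6
  have b1 : ph D (P k w.2) (S.dl 1 k) (Q.v k ((L k).p.π w.2)) ≤ cM M D (K2 k) * ph D (P k w.2) (S.dl 1 k)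
      (l.F k ((L k).p.π w.2) (l.Y.v k ((L k).p.π w.2))) := ph_cM _ hD (S.dl_pos 1 k) g3 _ _ (fun i => (g4 _ a3 i).1)
  have b2 : ph D (P k w.2) (S.dl 1 k) (l.F k w.1 (l.Y.v k w.1)) ≤ cM M D (K2 k) * ph D (P k w.2) (S.dl 1 k)
      (Q.v k w.1) := ph_cM _ hD (S.dl_pos 1 k) g3 _ _ (fun i => (g4 _ a1 i).2)
  have b3 := mul_le_mul_of_nonneg_left (g6.trans (mul_le_mul_of_nonneg_left b2 g7)) (zero_le_one.trans
    (cM_one M D g3))
  refine (b1.trans b3).trans (le_of_eq ?_)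
  rw [mul_assoc, mul_assoc]

variable (hL : Nul S (fun k => (L k).leak (l.win c k)))
include hL

/-- SIZES: at the old point not larger than at the point of the copy -/
theorem cplP : ∃ K' : ℕ → ℝ, S.Sub K' ∧ Typ (S := (cpl L (wnC l c)).sp) (fun k w =>
      ph D (P k w.2) (S.dl 1 k) (Q.v k w.1) ≤ K' k * ph D (P k w.2) (S.dl 1 k) (Q.v k ((L k).p.π w.2))) := by
  obtain ⟨K1, hK1, hT⟩ := cpl_pol l L hL (D := D + D) (fun k w p => ph D (P k w) (S.dl 1 k) p) (by
    filter_upwards [hP] with k hk w hw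
    exact ph_mem _ (hk w hw) _) (κ := fun _ => 1) (S.Sub_const zero_le_one) (by
      filter_upwards [hm] with k hk w w' hw hw' hZ hV hLa _ p
      rw [hk w w' hw hw' hZ hV hLa, one_mul]) h0 h1
  obtain ⟨K2, hK2, hK21, hn⟩ := pt_near l
  refine ⟨fun k => cM M D (K2 k) * (K1 k * cM M D (K2 k)), (cM_Sub M D hK2 hK21).mul
    (hK1.mul (cM_Sub M D hK2 hK21)), hT.mono ?_⟩
  filter_upwards [hP, hK21, hn, hK1.1] with k g1 g3 g4 g7 w hw g6
  obtain ⟨a1, a2, a3, a4, a5, a6⟩ := wnC_agree l L k w hw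
  have hD := g1 w.2 a2
  rw [abs_of_nonneg (ph_nonneg _ _ _), abs_of_nonneg (ph_nonneg _ _ _)] at g6
  have b1 : ph D (P k w.2) (S.dl 1 k) (Q.v k w.1) ≤ cM M D (K2 k) * ph D (P k w.2) (S.dl 1 k)
      (l.F k w.1 (l.Y.v k w.1)) := ph_cM _ hD (S.dl_pos 1 k) g3 _ _ (fun i => (g4 _ a1 i).1)
  have b2 : ph D (P k w.2) (S.dl 1 k) (l.F k ((L k).p.π w.2) (l.Y.v k ((L k).p.π w.2))) ≤ cM M D (K2 k) *
      ph D (P k w.2) (S.dl 1 k) (Q.v k ((L k).p.π w.2)) :=
    ph_cM _ hD (S.dl_pos 1 k) g3 _ _ (fun i => (g4 _ a3 i).2)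
  have b3 := mul_le_mul_of_nonneg_left (g6.trans (mul_le_mul_of_nonneg_left b2 g7)) (zero_le_one.trans
    (cM_one M D g3))
  refine (b1.trans b3).trans (le_of_eq ?_)
  rw [mul_assoc, mul_assoc]

end cmp

/-! ### the minor as a polynomial -/

/-- the minor of the rows, as a polynomial -/
def dpol (Ex : Fin v ⊕ Fin q ≃ Fin M) (f : Fin q → MvPolynomial (Fin M) ℝ) : MvPolynomial (Fin M) ℝ :=
  (Matrix.of fun j i : Fin q => MvPolynomial.pderiv (Ex (Sum.inr i)) (f j)).det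

theorem eval_dpol (Ex : Fin v ⊕ Fin q ≃ Fin M) (f : Fin q → MvPolynomial (Fin M) ℝ) (x : Fin M → ℝ) :
    MvPolynomial.eval x (dpol Ex f) = (rmx Ex f x).det := by
  unfold dpol
  rw [RingHom.map_det]
  rfl

theorem dpol_deg (Ex : Fin v ⊕ Fin q ≃ Fin M) (f : Fin q → MvPolynomial (Fin M) ℝ)
    (hf : ∀ j, (f j).totalDegree ≤ D) : (dpol Ex f).totalDegree ≤ q * D := by
  have h := Alg_det (pol_alg M) (ι := Fin q) (D := D)
    (fun j i p => MvPolynomial.eval p (MvPolynomial.pderiv (Ex (Sum.inr i)) (f j)))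
    (fun j i => ⟨_, by rw [one_mul]; exact pderiv_tdeg _ (hf j) _, rfl⟩)
  rw [Fintype.card_fin] at h
  obtain ⟨P, hP, e⟩ := h
  have e1 : dpol Ex f = P := by
    apply MvPolynomial.funext
    intro x
    have e2 := congrFun e x
    rw [eval_dpol]
    exact e2
  rw [e1]
  rwa [one_mul] at hP

/-! ### the transfer -/

section main

variable {Q : S.VV M} (l : Leaf S Q E) {V1 : ∀ k, Setoid (S.F k).Ω} {Ex : ∀ k, (S.F k).Ω → (Fin v ⊕ Fin q ≃ Fin M)}
  {f : ∀ k, (S.F k).Ω → Fin q → MvPolynomial (Fin M) ℝ} {w : ∀ k, (S.F k).Ω → Fin q → ℝ}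

/-- the best node of the cell -/
theorem exists_node (P : MvPolynomial (Fin M) ℝ) (D : ℕ) (r : ℝ) (p : Fin M → ℝ) : ∃ j : Fin M → Fin (D + 1),
    ph D P r p ≤ nn M D * (MvPolynomial.eval (nodp D p r j) P) ^ 2 := by
  obtain ⟨j, -, hj⟩ := Finset.exists_max_image (Finset.univ : Finset (Fin M → Fin (D + 1)))
    (fun j => |MvPolynomial.eval (nodp D p r j) P|) Finset.univ_nonempty
  refine ⟨j, (ph_le_of P (B := |MvPolynomial.eval (nodp D p r j) P|) fun i => hj i (Finset.mem_univ _)).trans ?_⟩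
  rw [sq_abs]

/-- the code: the best node for the minor -/
def nodX (D : ℕ) (Q : S.VV M) (V1 : ∀ k, Setoid (S.F k).Ω) (l : Leaf S Q E)
    (Ex : ∀ k, (S.F k).Ω → (Fin v ⊕ Fin q ≃ Fin M)) (f : ∀ k, (S.F k).Ω → Fin q → MvPolynomial (Fin M) ℝ)
    (k : ℕ) (u : ((cR0 l (Lab.ofZ V1)).F k).Ω) : Fin M → Fin (q * D + 1) :=
  (exists_node (dpol (Ex k u.2) (f k u.2)) (q * D) (S.dl 1 k) (Q.v k u.1)).choose

/-- the translated rows -/
def nodF (D : ℕ) (Q : S.VV M) (V1 : ∀ k, Setoid (S.F k).Ω) (l : Leaf S Q E)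
    (Ex : ∀ k, (S.F k).Ω → (Fin v ⊕ Fin q ≃ Fin M)) (f : ∀ k, (S.F k).Ω → Fin q → MvPolynomial (Fin M) ℝ)
    (k : ℕ) (u : ((cR0 l (Lab.ofZ V1)).F k).Ω) (j : Fin q) : MvPolynomial (Fin M) ℝ :=
  trp (q * D) (S.dl 1 k) (nodX D Q V1 l Ex f k u) (f k u.2 j)

/-- ROWS AT THE OLD POINT -/
theorem rowsF_old (x : RowsF V1 Q D Ex f w) (hL : Nul S (fun k => ((Lab.ofZ V1) k).leak (l.win 0 k)))
    (hP : Nul S (fun k => ((Lab.ofZ V1) k).leak (pcd Q k))) :
    RowsF (S := cR0 l (Lab.ofZ V1)) (fun k => cV0 l (Lab.ofZ V1) k ⊓ Setoid.ker (nodX D Q V1 l Ex f k))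
      ((cP0 l (Lab.ofZ V1)).vv Q) D (fun k u => Ex k u.2) (nodF D Q V1 l Ex f) (fun k u => w k u.2) := by
  have hag := wnC_agree l (Lab.ofZ V1) (c := 0)
  have hdeg : ∀ᶠ k in UF, ∀ u : (S.F k).Ω, (S.F k).μ u ≠ 0 → ∀ j, (f k u j).totalDegree ≤ D := x.deg
  -- the sizes of the rows
  have key1 : ∀ j : Fin q, ∀ η : ℝ, 0 < η → Typ (S := cR0 l (Lab.ofZ V1)) (fun k u =>
      ph D (f k u.2 j) (S.dl 1 k) (Q.v k u.1) ≤ 2 ^ (2 * η * (S.F k).n)) := by
    intro j η hη
    obtain ⟨K, hK, hT⟩ := cplP l le_rfl one_pos (Lab.ofZ V1) (D := D) (fun k u => f k u j) (by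
      filter_upwards [hdeg] with k hk u hu
      exact hk u hu j) (by
      filter_upwards [x.msf] with k hk u u' hu hu' hZ hV _
      rw [hk u u' hu hu' hZ hV]) hL
    have h1 : Typ (fun k (u : (S.F k).Ω) => ph D (f k u j) (S.dl 1 k) (Q.v k u) ≤
        nn M D * ((M + 1) * 2 ^ (η / 2 * (S.F k).n)) ^ 2) := by
      refine ((x.bd (η / 2) (by linarith)).and (x.der (η / 2) (by linarith))).mono ?_
      filter_upwards [x.w01] with k g1 u hu g2
      apply ph_le_of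
      intro i
      obtain ⟨t, ht0, ht1, ht⟩ := Pool.Agent.Helper76.PUR.mvt (f k u j) (Q.v k u) (nodp D (Q.v k u) (S.dl 1 k) i)
      have hr := (S.dl_pos 1 k).le
      have h2 : ∀ b, |(nodp D (Q.v k u) (S.dl 1 k) i b - Q.v k u b) * MvPolynomial.eval
          (fun a => Q.v k u a + t * (nodp D (Q.v k u) (S.dl 1 k) i a - Q.v k u a))
            (MvPolynomial.pderiv b (f k u j))| ≤ 2 ^ (η / 2 * (S.F k).n) := by
        intro b
        rw [abs_mul]
        have h3 := nodp_near hr (Q.v k u) i b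
        have h4 := g2.2 (fun a => Q.v k u a + t * (nodp D (Q.v k u) (S.dl 1 k) i a - Q.v k u a)) (by
          intro a
          have h5 := nodp_near hr (Q.v k u) i a
          have e1 : Q.v k u a + t * (nodp D (Q.v k u) (S.dl 1 k) i a - Q.v k u a) - Q.v k u a =
            t * (nodp D (Q.v k u) (S.dl 1 k) i a - Q.v k u a) := by ring
          rw [e1, abs_mul, abs_of_pos ht0]
          calc t * |nodp D (Q.v k u) (S.dl 1 k) i a - Q.v k u a| ≤ 1 * S.dl 1 k :=
              mul_le_mul ht1.le h5 (abs_nonneg _) zero_le_one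
            _ = S.dl 1 k := one_mul _) j b
        refine (mul_le_mul h3 h4 (abs_nonneg _) hr).trans ?_
        unfold Sp.dl
        rw [← Real.rpow_add (by norm_num)]
        apply Real.rpow_le_rpow_of_exponent_le (by norm_num)
        have h6 := (g1 u hu j).2
        have h7 := (S.F k).pos
        nlinarith
      have e2 : MvPolynomial.eval (nodp D (Q.v k u) (S.dl 1 k) i) (f k u j) =
          MvPolynomial.eval (Q.v k u) (f k u j) + ∑ b, (nodp D (Q.v k u) (S.dl 1 k) i b - Q.v k u b) *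
            MvPolynomial.eval (fun a => Q.v k u a + t * (nodp D (Q.v k u) (S.dl 1 k) i a - Q.v k u a))
              (MvPolynomial.pderiv b (f k u j)) := by
        rw [← ht]
        ring
      rw [e2]
      have h8 := Finset.abs_sum_le_sum_abs (fun b => (nodp D (Q.v k u) (S.dl 1 k) i b - Q.v k u b) *
            MvPolynomial.eval (fun a => Q.v k u a + t * (nodp D (Q.v k u) (S.dl 1 k) i a - Q.v k u a))
              (MvPolynomial.pderiv b (f k u j))) Finset.univ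
      have h9 := Finset.sum_le_card_nsmul (Finset.univ : Finset (Fin M)) _ _ (fun b _ => h2 b)
      rw [nsmul_eq_mul, Finset.card_univ, Fintype.card_fin] at h9
      have h10 := abs_add_le (MvPolynomial.eval (Q.v k u) (f k u j)) (∑ b, (nodp D (Q.v k u) (S.dl 1 k) i b -
        Q.v k u b) * MvPolynomial.eval (fun a => Q.v k u a + t * (nodp D (Q.v k u) (S.dl 1 k) i a - Q.v k u a))
              (MvPolynomial.pderiv b (f k u j)))
      have h11 := g2.1 j
      linarith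
    have h2 : Typ (S := cR0 l (Lab.ofZ V1)) (fun k u => ph D (f k u.2 j) (S.dl 1 k) (Q.v k u.2) ≤
        nn M D * ((M + 1) * 2 ^ (η / 2 * (S.F k).n)) ^ 2) := (cpl (Lab.ofZ V1) (wnC l 0)).p2.typ_iff.2 h1
    have hc : S.Sub fun k => K k * (nn M D * (M + 1) ^ 2) :=
      hK.mul (S.Sub_const (mul_nonneg (zero_le_one.trans (nn_one M D)) (by positivity)))
    refine (hT.and h2).mono ?_
    filter_upwards [hc.eventually_le hη, hK.1] with k g1 g2 u hu g3
    refine g3.1.trans ((mul_le_mul_of_nonneg_left g3.2 g2).trans ?_)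
    have e1 : K k * (nn M D * ((M + 1) * 2 ^ (η / 2 * (S.F k).n)) ^ 2) =
        (K k * (nn M D * (M + 1) ^ 2)) * (2 ^ (η / 2 * (S.F k).n)) ^ 2 := by ring
    have e2 : (2 : ℝ) ^ (2 * η * (S.F k).n) = 2 ^ (η * (S.F k).n) * (2 ^ (η / 2 * (S.F k).n)) ^ 2 := by
      rw [← Real.rpow_natCast (2 ^ (η / 2 * (S.F k).n)) 2, ← Real.rpow_mul (by norm_num),
        ← Real.rpow_add (by norm_num)]
      congr 1
      push_cast
      ring
    rw [e1, e2]
    apply mul_le_mul_of_nonneg_right _ (by positivity)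
    linarith
  -- the sizes of the gradients
  have key2 : ∀ (j : Fin q) (a : Fin M), ∀ η : ℝ, 0 < η → Typ (S := cR0 l (Lab.ofZ V1)) (fun k u =>
      ph D (MvPolynomial.pderiv a (f k u.2 j)) (S.dl 1 k) (Q.v k u.1) ≤ 2 ^ (2 * (w k u.2 j + η) * (S.F k).n)) := by
    intro j a η hη
    obtain ⟨K, hK, hT⟩ := cplP l le_rfl one_pos (Lab.ofZ V1) (D := D) (fun k u => MvPolynomial.pderiv a (f k u j)) (by
      filter_upwards [hdeg] with k hk u hu
      exact pderiv_tdeg _ (hk u hu j) a) (by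
      filter_upwards [x.msf] with k hk u u' hu hu' hZ hV _
      rw [hk u u' hu hu' hZ hV]) hL
    have h1 : Typ (fun k (u : (S.F k).Ω) => ph D (MvPolynomial.pderiv a (f k u j)) (S.dl 1 k) (Q.v k u) ≤
        nn M D * (2 ^ ((w k u j + η / 2) * (S.F k).n)) ^ 2) := by
      refine (x.der (η / 2) (by linarith)).mono (Eventually.of_forall fun k u hu g2 => ?_)
      apply ph_le_of
      intro i
      exact g2 _ (fun b => nodp_near (S.dl_pos 1 k).le (Q.v k u) i b) j a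
    have h2 : Typ (S := cR0 l (Lab.ofZ V1)) (fun k u => ph D (MvPolynomial.pderiv a (f k u.2 j)) (S.dl 1 k)
        (Q.v k u.2) ≤ nn M D * (2 ^ ((w k u.2 j + η / 2) * (S.F k).n)) ^ 2) :=
      (cpl (Lab.ofZ V1) (wnC l 0)).p2.typ_iff.2 h1
    have hc : S.Sub fun k => K k * nn M D := hK.mul (S.Sub_const (zero_le_one.trans (nn_one M D)))
    refine (hT.and h2).mono ?_
    filter_upwards [hc.eventually_le hη, hK.1] with k g1 g2 u hu g3
    refine g3.1.trans ((mul_le_mul_of_nonneg_left g3.2 g2).trans ?_)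
    have e2 : (2 : ℝ) ^ (2 * (w k u.2 j + η) * (S.F k).n) = 2 ^ (η * (S.F k).n) *
        (2 ^ ((w k u.2 j + η / 2) * (S.F k).n)) ^ 2 := by
      rw [← Real.rpow_natCast (2 ^ ((w k u.2 j + η / 2) * (S.F k).n)) 2, ← Real.rpow_mul (by norm_num),
        ← Real.rpow_add (by norm_num)]
      congr 1
      push_cast
      ring
    rw [← mul_assoc, e2]
    apply mul_le_mul_of_nonneg_right _ (by positivity)
    linarith
  -- the minor
  have key3 : ∀ η : ℝ, 0 < η → Typ (S := cR0 l (Lab.ofZ V1)) (fun k u => 2 ^ (2 * (∑ j, w k u.2 j - η) *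
      (S.F k).n) ≤ ph (q * D) (dpol (Ex k u.2) (f k u.2)) (S.dl 1 k) (Q.v k u.1)) := by
    intro η hη
    obtain ⟨K, hK, hT⟩ := cplP' l le_rfl one_pos (Lab.ofZ V1) (D := q * D) (fun k u => dpol (Ex k u) (f k u)) (by
      filter_upwards [hdeg] with k hk u hu
      exact dpol_deg _ _ (hk u hu)) (by
      filter_upwards [x.msf, x.msE] with k hk hk' u u' hu hu' hZ hV _
      rw [hk u u' hu hu' hZ hV, hk' u u' hu hu' hZ hV])
    have h1 : Typ (fun k (u : (S.F k).Ω) => (2 ^ ((∑ j, w k u j - η / 2) * (S.F k).n)) ^ 2 ≤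
        Cm M (q * D) ^ 2 * ph (q * D) (dpol (Ex k u) (f k u)) (S.dl 1 k) (Q.v k u)) := by
      refine (x.det (η / 2) (by linarith)).mono ?_
      filter_upwards [hdeg] with k hk u hu g2
      have h2 := val_le (dpol (Ex k u) (f k u)) (dpol_deg _ _ (hk u hu)) (S.dl 1 k) 1 (S.dl_pos 1 k) le_rfl
        (Q.v k u) (Q.v k u) (fun i => by
          rw [sub_self, abs_zero, one_mul]
          exact (S.dl_pos 1 k).le)
      rw [one_pow, mul_one, eval_dpol, ← sq_abs (rmx (Ex k u) (f k u) (Q.v k u)).det] at h2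
      exact (pow_le_pow_left₀ (by positivity) g2 2).trans h2
    have h2 : Typ (S := cR0 l (Lab.ofZ V1)) (fun k u => (2 ^ ((∑ j, w k u.2 j - η / 2) * (S.F k).n)) ^ 2 ≤
        Cm M (q * D) ^ 2 * ph (q * D) (dpol (Ex k u.2) (f k u.2)) (S.dl 1 k) (Q.v k u.2)) :=
      (cpl (Lab.ofZ V1) (wnC l 0)).p2.typ_iff.2 h1
    have hc : S.Sub fun k => K k * Cm M (q * D) ^ 2 := hK.mul (S.Sub_const (by positivity))
    refine (hT.and h2).mono ?_
    filter_upwards [hc.eventually_le hη, hK.1] with k g1 g2 u hu g3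
    have h3 := ph_nonneg (D := q * D) (dpol (Ex k u.2) (f k u.2)) (S.dl 1 k) (Q.v k u.1)
    have h4 : (2 ^ ((∑ j, w k u.2 j - η / 2) * (S.F k).n)) ^ 2 ≤ 2 ^ (η * (S.F k).n) *
        ph (q * D) (dpol (Ex k u.2) (f k u.2)) (S.dl 1 k) (Q.v k u.1) := by
      refine g3.2.trans ((mul_le_mul_of_nonneg_left g3.1 (by positivity)).trans ?_)
      rw [← mul_assoc]
      apply mul_le_mul_of_nonneg_right _ h3
      rw [mul_comm]
      linarith
    have e2 : ((2 : ℝ) ^ ((∑ j, w k u.2 j - η / 2) * (S.F k).n)) ^ 2 = 2 ^ (η * (S.F k).n) *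
        2 ^ (2 * (∑ j, w k u.2 j - η) * (S.F k).n) := by
      rw [← Real.rpow_natCast (2 ^ ((∑ j, w k u.2 j - η / 2) * (S.F k).n)) 2, ← Real.rpow_mul (by norm_num),
        ← Real.rpow_add (by norm_num)]
      congr 1
      push_cast
      ring
    rw [e2] at h4
    exact le_of_mul_le_mul_left h4 (by positivity)
  refine ⟨?_, ?_, ?_, ?_, ?_, ?_, ?_, ?_, ?_⟩
  · filter_upwards [x.w01] with k hk u hu
    exact hk u.2 (hag k u hu).2.1
  · filter_upwards [hdeg] with k hk u hu j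
    exact (trp_deg _ _ _).trans (hk u.2 (hag k u hu).2.1 j)
  · filter_upwards [x.msE] with k hk u u' hu hu' hZ hV
    exact hk u.2 u'.2 (hag k u hu).2.1 (hag k u' hu').2.1
      (((cpl (Lab.ofZ V1) (wnC l 0)).p2.hZ k u u' hu hu').mp hZ) hV.1
  · filter_upwards [x.msf] with k hk u u' hu hu' hZ hV
    have h1 := hk u.2 u'.2 (hag k u hu).2.1 (hag k u' hu').2.1
      (((cpl (Lab.ofZ V1) (wnC l 0)).p2.hZ k u u' hu hu').mp hZ) hV.1
    have h2 : nodX D Q V1 l Ex f k u = nodX D Q V1 l Ex f k u' := hV.2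
    funext j
    unfold nodF
    rw [h1, h2]
  · filter_upwards [x.msw] with k hk u u' hu hu' hZ hV
    exact hk u.2 u'.2 (hag k u hu).2.1 (hag k u' hu').2.1
      (((cpl (Lab.ofZ V1) (wnC l 0)).p2.hZ k u u' hu hu').mp hZ) hV.1
  · intro η hη
    have h1 := Pool.Agent.Helper63.MT.typ_all (fun j => key1 j (η / 2) (by linarith))
    refine Typ.mono (S := cR0 l (Lab.ofZ V1)) h1 ?_
    have hc : S.Sub fun _ => Cm M D ^ 2 := S.Sub_const (by positivity)
    filter_upwards [hdeg, hc.eventually_le hη] with k g1 g2 u hu g3 j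
    have h2 := g1 u.2 (hag k u hu).2.1 j
    have e1 : MvPolynomial.eval (((cP0 l (Lab.ofZ V1)).vv Q).v k u) (nodF D Q V1 l Ex f k u j) =
        MvPolynomial.eval (nodp (q * D) (Q.v k u.1) (S.dl 1 k) (nodX D Q V1 l Ex f k u)) (f k u.2 j) :=
      eval_trp _ _ _ _
    rw [e1]
    have h3 := val_le (f k u.2 j) h2 (S.dl 1 k) 1 (S.dl_pos 1 k) le_rfl (Q.v k u.1)
      (nodp (q * D) (Q.v k u.1) (S.dl 1 k) (nodX D Q V1 l Ex f k u)) (fun i => by
        rw [one_mul]
        exact nodp_near (S.dl_pos 1 k).le _ _ i)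
    rw [one_pow, mul_one] at h3
    have h4 : (MvPolynomial.eval (nodp (q * D) (Q.v k u.1) (S.dl 1 k) (nodX D Q V1 l Ex f k u)) (f k u.2 j)) ^ 2 ≤
        (2 ^ (η * (S.F k).n)) ^ 2 := by
      refine h3.trans ((mul_le_mul_of_nonneg_left (g3 j) (by positivity)).trans ?_)
      have e2 : ((2 : ℝ) ^ (η * (S.F k).n)) ^ 2 = 2 ^ (η * (S.F k).n) * 2 ^ (2 * (η / 2) * (S.F k).n) := by
        rw [sq, ← Real.rpow_add (by norm_num), ← Real.rpow_add (by norm_num)]
        congr 1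
        ring
      rw [e2]
      apply mul_le_mul_of_nonneg_right _ (by positivity)
      linarith
    exact abs_le_of_sq_le_sq h4 (by positivity)
  · intro η hη
    have h1 := Pool.Agent.Helper63.MT.typ_all (fun j => Pool.Agent.Helper63.MT.typ_all
      (fun a => key2 j a (η / 2) (by linarith)))
    refine Typ.mono (S := cR0 l (Lab.ofZ V1)) h1 ?_
    have hc : S.Sub fun _ => (Cm M D * 2 ^ (M * D)) ^ 2 := S.Sub_const (by positivity)
    filter_upwards [hdeg, hc.eventually_le hη, x.w01] with k g1 g2 g4 u hu g3 y hy j a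
    have h2 := g1 u.2 (hag k u hu).2.1 j
    have h5 := (g4 u.2 (hag k u hu).2.1 j).1
    have e1 : MvPolynomial.eval y (MvPolynomial.pderiv a (nodF D Q V1 l Ex f k u j)) =
        MvPolynomial.eval (nodp (q * D) y (S.dl 1 k) (nodX D Q V1 l Ex f k u)) (MvPolynomial.pderiv a (f k u.2 j)) := by
      unfold nodF
      rw [pderiv_trp, eval_trp]
    rw [e1]
    have h3 := val_le (MvPolynomial.pderiv a (f k u.2 j)) (pderiv_tdeg _ h2 a) (S.dl 1 k) 2 (S.dl_pos 1 k)
      (by norm_num) (Q.v k u.1) (nodp (q * D) y (S.dl 1 k) (nodX D Q V1 l Ex f k u)) (fun i => by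
        have h6 := nodp_near (S.dl_pos 1 k).le y (nodX D Q V1 l Ex f k u) i
        have h7 : |y i - Q.v k u.1 i| ≤ S.dl 1 k := hy i
        have h8 := abs_add_le (nodp (q * D) y (S.dl 1 k) (nodX D Q V1 l Ex f k u) i - y i) (y i - Q.v k u.1 i)
        rw [sub_add_sub_cancel] at h8
        linarith)
    have h4 : (MvPolynomial.eval (nodp (q * D) y (S.dl 1 k) (nodX D Q V1 l Ex f k u))
        (MvPolynomial.pderiv a (f k u.2 j))) ^ 2 ≤ (2 ^ ((w k u.2 j + η) * (S.F k).n)) ^ 2 := by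
      refine h3.trans ((mul_le_mul_of_nonneg_left (g3 j a) (by positivity)).trans ?_)
      have e2 : ((2 : ℝ) ^ ((w k u.2 j + η) * (S.F k).n)) ^ 2 = 2 ^ (η * (S.F k).n) *
          2 ^ (2 * (w k u.2 j + η / 2) * (S.F k).n) := by
        rw [sq, ← Real.rpow_add (by norm_num), ← Real.rpow_add (by norm_num)]
        congr 1
        ring
      rw [e2]
      apply mul_le_mul_of_nonneg_right _ (by positivity)
      linarith
    exact abs_le_of_sq_le_sq h4 (by positivity)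
  · intro η hη
    refine Typ.mono (S := cR0 l (Lab.ofZ V1)) (key3 (η / 2) (by linarith)) ?_
    have hc : S.Sub fun _ => nn M (q * D) := S.Sub_const (zero_le_one.trans (nn_one _ _))
    filter_upwards [hc.eventually_le hη] with k g2 u hu g3
    have h1 := (exists_node (dpol (Ex k u.2) (f k u.2)) (q * D) (S.dl 1 k) (Q.v k u.1)).choose_spec
    have e1 : MvPolynomial.eval (nodp (q * D) (Q.v k u.1) (S.dl 1 k) (nodX D Q V1 l Ex f k u))
        (dpol (Ex k u.2) (f k u.2)) = (rmx (Ex k u.2) (nodF D Q V1 l Ex f k u) (Q.v k u.1)).det := by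
      rw [eval_dpol]
      congr 1
      ext j i
      show MvPolynomial.eval (nodp (q * D) (Q.v k u.1) (S.dl 1 k) (nodX D Q V1 l Ex f k u))
        (MvPolynomial.pderiv (Ex k u.2 (Sum.inr i)) (f k u.2 j)) =
        MvPolynomial.eval (Q.v k u.1) (MvPolynomial.pderiv (Ex k u.2 (Sum.inr i)) (nodF D Q V1 l Ex f k u j))
      unfold nodF
      rw [pderiv_trp, eval_trp]
    have h2 : 2 ^ (2 * (∑ j, w k u.2 j - η / 2) * (S.F k).n) ≤ nn M (q * D) *
        (rmx (Ex k u.2) (nodF D Q V1 l Ex f k u) (Q.v k u.1)).det ^ 2 := by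
      rw [← e1]
      exact g3.trans h1
    have h3 : (2 ^ ((∑ j, w k u.2 j - η) * (S.F k).n)) ^ 2 ≤
        (rmx (Ex k u.2) (nodF D Q V1 l Ex f k u) (Q.v k u.1)).det ^ 2 := by
      have e2 : ((2 : ℝ) ^ (2 * (∑ j, w k u.2 j - η / 2) * (S.F k).n)) = 2 ^ (η * (S.F k).n) *
          (2 ^ ((∑ j, w k u.2 j - η) * (S.F k).n)) ^ 2 := by
        rw [sq, ← Real.rpow_add (by norm_num), ← Real.rpow_add (by norm_num)]
        congr 1
        ring
      rw [e2] at h2
      have h4 : nn M (q * D) * (rmx (Ex k u.2) (nodF D Q V1 l Ex f k u) (Q.v k u.1)).det ^ 2 ≤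
          2 ^ (η * (S.F k).n) * (rmx (Ex k u.2) (nodF D Q V1 l Ex f k u) (Q.v k u.1)).det ^ 2 := by
        apply mul_le_mul_of_nonneg_right _ (sq_nonneg _)
        linarith
      exact le_of_mul_le_mul_left (h2.trans h4) (by positivity)
    have h5 := sq_le_sq.mp h3
    rw [abs_of_pos (by positivity)] at h5
    exact h5
  · intro ε hε
    have hP' : Tendsto (fun k => ((Lab.ofZ V1) k).leak (pcd Q k) / (S.F k).n) UF (𝓝 0) := hP
    filter_upwards [x.fu (ε / 3) (by linarith), hP'.eventually (gt_mem_nhds (show 0 < ε / 3 by linarith)),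
      ent_fin (S := cR0 l (Lab.ofZ V1)) (nodX D Q V1 l Ex f) (cV0 l (Lab.ofZ V1)) (show 0 < ε / 3 by linarith)]
      with k h1 h2 h3
    have hn := (S.F k).pos
    rw [div_lt_iff₀ hn] at h2
    have g4 := cpLab_full (Lab.ofZ V1) (wnC l 0) k (pcd Q k)
    have e1 : (cpLab (Lab.ofZ V1) (wnC l 0) k).p.map (pcd Q k) =
        pcd ((cP0 l (Lab.ofZ V1)).vv Q) k := by
      rw [pcd_pull]
      rfl
    rw [e1] at g4
    have g5 : (S.F k).e (Setoid.ker (Q.cellv 1 k)) (V1 k ⊓ (S.F k).Z) =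
        h (((Lab.ofZ V1) k).p.map (pcd Q k)) ((Lab.ofZ V1) k).v := by
      rw [← h_fc]
      rfl
    have g6 : h (pcd ((cP0 l (Lab.ofZ V1)).vv Q) k) (cpLab (Lab.ofZ V1) (wnC l 0) k).v =
        ((cR0 l (Lab.ofZ V1)).F k).e (Setoid.ker (((cP0 l (Lab.ofZ V1)).vv Q).cellv 1 k))
          (cV0 l (Lab.ofZ V1) k ⊓ ((cR0 l (Lab.ofZ V1)).F k).Z) := by
      rw [← h_fc]
      rfl
    have g7 : ∑ u, ((cR0 l (Lab.ofZ V1)).F k).μ u * ∑ j, w k u.2 j = ∑ ω, (S.F k).μ ω * ∑ j, w k ω j :=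
      Pool.Agent.Helper89.LX.sum_push ((cpl (Lab.ofZ V1) (wnC l 0)).p2.fp k) (fun ω => ∑ j, w k ω j)
    have g8 := ((cR0 l (Lab.ofZ V1)).F k).e_triangle (Setoid.ker (((cP0 l (Lab.ofZ V1)).vv Q).cellv 1 k))
      (Setoid.ker (nodX D Q V1 l Ex f k)) (cV0 l (Lab.ofZ V1) k ⊓ ((cR0 l (Lab.ofZ V1)).F k).Z)
    have e5 : Setoid.ker (nodX D Q V1 l Ex f k) ⊓ (cV0 l (Lab.ofZ V1) k ⊓ ((cR0 l (Lab.ofZ V1)).F k).Z) =
        cV0 l (Lab.ofZ V1) k ⊓ Setoid.ker (nodX D Q V1 l Ex f k) ⊓ ((cR0 l (Lab.ofZ V1)).F k).Z := by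
      ac_rfl
    rw [e5] at g8
    have g4' := g4.trans g6.le
    rw [g7]
    rw [g5] at h1
    have e2 : ((cR0 l (Lab.ofZ V1)).F k).n = (S.F k).n := rfl
    rw [e2] at h3 ⊢
    have g9 := g4'.trans (g8.trans (add_le_add le_rfl h3))
    have e3 : (M - ε) * (S.F k).n = (M - ε / 3) * (S.F k).n - ε / 3 * (S.F k).n - ε / 3 * (S.F k).n := by ring
    rw [e3]
    linarith

end main

/-! ### extensions and the joint space -/

section joint

variable {Q : S.VV M} {V1 : ∀ k, Setoid (S.F k).Ω} {Ex : ∀ k, (S.F k).Ω → (Fin v ⊕ Fin q ≃ Fin M)}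
  {f : ∀ k, (S.F k).Ω → Fin q → MvPolynomial (Fin M) ℝ} {w : ∀ k, (S.F k).Ω → Fin q → ℝ}

/-- rows on an extension, with another version of the pulled point on the support -/
theorem rowsF_pc (x : RowsF V1 Q D Ex f w) (p : Pj T S) (Q' : T.VV M)
    (hQ : ∀ᶠ k in UF, ∀ ω, (T.F k).μ ω ≠ 0 → Q'.v k ω = Q.v k (p.π k ω)) :
    RowsF (p.pb V1) Q' D (fun k ω => Ex k (p.π k ω)) (fun k ω => f k (p.π k ω)) (fun k ω => w k (p.π k ω)) := by
  have hdl : ∀ k, T.dl 1 k = S.dl 1 k := fun k => by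
    unfold Sp.dl
    rw [p.hn k]
  refine ⟨?_, ?_, ?_, ?_, ?_, ?_, ?_, ?_, ?_⟩
  · filter_upwards [x.w01] with k hk u hu
    exact hk _ (p.supp k u hu)
  · filter_upwards [x.deg] with k hk u hu
    exact hk _ (p.supp k u hu)
  · filter_upwards [x.msE] with k hk u u' hu hu' hZ hV
    exact hk _ _ (p.supp k u hu) (p.supp k u' hu') ((p.hZ k u u' hu hu').mp hZ) hV
  · filter_upwards [x.msf] with k hk u u' hu hu' hZ hV
    exact hk _ _ (p.supp k u hu) (p.supp k u' hu') ((p.hZ k u u' hu hu').mp hZ) hV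
  · filter_upwards [x.msw] with k hk u u' hu hu' hZ hV
    exact hk _ _ (p.supp k u hu) (p.supp k u' hu') ((p.hZ k u u' hu hu').mp hZ) hV
  · intro η hη
    refine (p.typ_iff.2 (x.bd η hη)).mono ?_
    filter_upwards [hQ] with k h1 u hu h2
    rw [h1 u hu, p.hn k]
    exact h2
  · intro η hη
    refine (p.typ_iff.2 (x.der η hη)).mono ?_
    filter_upwards [hQ] with k h1 u hu h2
    rw [h1 u hu, p.hn k, hdl k]
    exact h2
  · intro η hη
    refine (p.typ_iff.2 (x.det η hη)).mono ?_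
    filter_upwards [hQ] with k h1 u hu h2
    rw [h1 u hu, p.hn k]
    exact h2
  · intro ε hε
    filter_upwards [x.fu ε hε, hQ] with k h1 h2
    have e1 := (p.fp k).h_map (fc (Setoid.ker (Q.cellv 1 k))) (fc (V1 k))
    have e0 : (fc (Setoid.ker (Q'.cellv 1 k)) : FL (T.F k)) = (p.fp k).map (fc (Setoid.ker (Q.cellv 1 k))) := by
      have e2 : ∀ ω, (T.F k).μ ω ≠ 0 → Q'.cellv 1 k ω = Q.cellv 1 k (p.π k ω) := by
        intro ω hω
        funext i
        show ⌊Q'.v k ω i / T.dl 1 k⌋ = ⌊Q.v k (p.π k ω) i / S.dl 1 k⌋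
        rw [h2 ω hω, hdl k]
      apply le_antisymm
      · apply fc_le
        intro ω ω' a b _ h3
        exact (e2 ω a).trans (Eq.trans h3 (e2 ω' b).symm)
      · apply fc_le
        intro ω ω' a b _ h3
        exact (e2 ω a).symm.trans (Eq.trans h3 (e2 ω' b))
    have e4 : (p.fp k).map (fc (V1 k)) = fc (p.pb V1 k) := rfl
    rw [← e0, e4, h_fc, h_fc] at e1
    have g7 : ∑ u, (T.F k).μ u * ∑ j, w k (p.π k u) j = ∑ ω, (S.F k).μ ω * ∑ j, w k ω j :=
      Pool.Agent.Helper89.LX.sum_push (p.fp k) (fun ω => ∑ j, w k ω j)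
    rw [e1, g7, p.hn k]
    exact h1

/-- ROWS OF THE COPY IN THE JOINT SPACE (87's `exists_cpt`), over the copy and a finite code -/
theorem rowsF_joint (l : Leaf S Q E) {W : Sp} (p : Pj W S) (q' : Pj W (cLb l V1).sp)
    (hq : ∀ k u, (W.F k).μ u ≠ 0 → (cLb l V1 k).p.π (q'.π k u) = p.π k u) (x : RowsF V1 Q D Ex f w)
    (hL : Nul S (fun k => ((Lab.ofZ V1) k).leak (l.win 0 k))) (hP : Nul S (fun k => ((Lab.ofZ V1) k).leak (pcd Q k))) :
    RowsF (S := W) (fun k => q'.pb (cLb l V1).V k ⊓ Setoid.ker (fun u => nodX D Q V1 l Ex f k (q'.π k u)))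
      (p.vv Q) D (fun k u => Ex k ((q'.π k u : _ × _).2)) (fun k u => nodF D Q V1 l Ex f k (q'.π k u))
      (fun k u => w k ((q'.π k u : _ × _).2)) := by
  refine rowsF_pc (rowsF_old l x hL hP) q' (p.vv Q) (Eventually.of_forall fun k u hu => ?_)
  show Q.v k (p.π k u) = Q.v k ((q'.π k u : _ × _).1)
  have h2 : (q'.π k u : _ × _).1 = p.π k u := hq k u hu
  rw [h2]

end joint

end

end Pool.Agent.Helper81.CP3
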