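import Pool.Agent.Helper81.CP3.Pre

/-! COPIES OF LABELS: forms and gradients of an arbitrary radius `r k ≥ dl 1 k` at the OLD point and at the point of the
copy, both directions; choices of coordinates. -/

set_option autoImplicit false

namespace Pool.Agent.Helper81.CP3

open Finset Filter Topology Matrix Pool.Agent.Helper69.RK Pool.Agent.Helper31.EC Pool.Agent.Helper31.EC.Sp
open Pool.Agent.Helper40.EL Pool.Agent.Helper84.MT Pool.Agent.Helper89.LX Pool.Agent.Helper3.LF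
open Pool.Agent.Helper95.LF (PdM)
open Pool.Agent.Helper76.DIM (pck)
open Pool.Agent.Helper81.CPY Pool.Agent.Helper81.CP2

noncomputable section

variable {S T : Sp} {M N D m v : ℕ} {E : ℕ → ℕ}

/-- a bound in units of a smaller radius -/
theorem near_r {a d r K : ℝ} (h : a + d ≤ K * d) (hd : d ≤ r) (hK : 1 ≤ K) : a + r ≤ K * r := by
  have h1 : (K - 1) * d ≤ (K - 1) * r := mul_le_mul_of_nonneg_left hd (by linarith)
  linarith

section

variable {Q : S.VV M} (l : Leaf S Q E) {c : ℝ} (h0 : 0 ≤ c) (h1 : c < 1) (L : Lab S)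
  (A : ∀ k, (L k).T.Ω → Matrix (Mon M D) (Mon M D) ℝ) (hA : ∀ᶠ k in UF, ∀ w, (L k).T.μ w ≠ 0 → PdM (A k w))
  (hm : ∀ᶠ k in UF, ∀ w w', (L k).T.μ w ≠ 0 → (L k).T.μ w' ≠ 0 → (L k).T.Z w w' → (L k).V w w' →
    l.La k ((L k).p.π w) ((L k).p.π w') → A k w = A k w') (r : ℕ → ℝ) (hr : ∀ᶠ k in UF, S.dl 1 k ≤ r k)

include h0 h1 hA hm hr

/-- FORMS of radius `r`: at the point of the copy not larger than at the old point -/
theorem cplR_phi' : ∃ K' : ℕ → ℝ, S.Sub K' ∧ Typ (S := (cpl L (wnC l c)).sp) (fun k w =>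
      phi (r k) (A k w.2) (Q.v k ((L k).p.π w.2)) ≤ K' k * phi (r k) (A k w.2) (Q.v k w.1)) := by
  obtain ⟨K1, hK1, hT⟩ := cpl_pol' l L (D := D + D) (fun k w p => phi (r k) (A k w) p)
    (Eventually.of_forall fun k w _ => phi_mem _ _) (κ := fun _ => 1) (S.Sub_const zero_le_one) (by
      filter_upwards [hm] with k hk w w' hw hw' hZ hV hLa _ p
      rw [hk w w' hw hw' hZ hV hLa, one_mul]) h0 h1
  obtain ⟨K2, hK2, hK21, hn⟩ := pt_near l
  refine ⟨fun k => cM M D (K2 k) * (K1 k * cM M D (K2 k)), (cM_Sub M D hK2 hK21).mul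
    (hK1.mul (cM_Sub M D hK2 hK21)), hT.mono ?_⟩
  filter_upwards [hA, hK21, hn, hK1.1, hr] with k g1 g3 g4 g7 g8 w hw g6
  obtain ⟨a1, a2, a3, a4, a5, a6⟩ := wnC_agree l L k w hw
  have hP : PdM (A k w.2) := g1 w.2 a2
  have hr0 : 0 < r k := (S.dl_pos 1 k).trans_le g8
  rw [abs_of_nonneg (phi_nonneg _ (fun x => hP.nonneg x) _), abs_of_nonneg (phi_nonneg _ (fun x => hP.nonneg x) _)] at g6
  have b1 : phi (r k) (A k w.2) (Q.v k ((L k).p.π w.2)) ≤ cM M D (K2 k) * phi (r k) (A k w.2)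
      (l.F k ((L k).p.π w.2) (l.Y.v k ((L k).p.π w.2))) := phi_comp (A k w.2) hP (r k) (r k) (K2 k) hr0 hr0.le g3
    (l.F k ((L k).p.π w.2) (l.Y.v k ((L k).p.π w.2))) (Q.v k ((L k).p.π w.2))
    (fun i => near_r (g4 _ a3 i).1 g8 g3)
  have b2 : phi (r k) (A k w.2) (l.F k w.1 (l.Y.v k w.1)) ≤ cM M D (K2 k) * phi (r k) (A k w.2)
      (Q.v k w.1) := phi_comp (A k w.2) hP (r k) (r k) (K2 k) hr0 hr0.le g3
    (Q.v k w.1) (l.F k w.1 (l.Y.v k w.1)) (fun i => near_r (g4 _ a1 i).2 g8 g3)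
  have b3 := mul_le_mul_of_nonneg_left (g6.trans (mul_le_mul_of_nonneg_left b2 g7)) (zero_le_one.trans
    (cM_one M D g3))
  refine (b1.trans b3).trans (le_of_eq ?_)
  rw [mul_assoc, mul_assoc]

/-- GRADIENTS of radius `r`: at the point of the copy not larger than at the old point -/
theorem cplR_J (z : Fin M) : ∃ K' : ℕ → ℝ, S.Sub K' ∧ Typ (S := (cpl L (wnC l c)).sp) (fun k w =>
      1 + Jq (r k) (A k w.2) (Q.v k ((L k).p.π w.2)) z z ≤
        K' k * (1 + Jq (r k) (A k w.2) (Q.v k w.1) z z)) := by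
  obtain ⟨K1, hK1, hT⟩ := cpl_pol' l L (D := D + D) (fun k w p => 1 + Jq (r k) (A k w) p z z)
    (Eventually.of_forall fun k w _ => J_mem _ _ z) (κ := fun _ => 1) (S.Sub_const zero_le_one) (by
      filter_upwards [hm] with k hk w w' hw hw' hZ hV hLa _ p
      rw [hk w w' hw hw' hZ hV hLa, one_mul]) h0 h1
  obtain ⟨K2, hK2, hK21, hn⟩ := pt_near l
  refine ⟨fun k => cQ M D * K2 k ^ (2 * D) * (K1 k * (cQ M D * K2 k ^ (2 * D))),
    (cJ_Sub hK2 hK21).mul (hK1.mul (cJ_Sub hK2 hK21)), hT.mono ?_⟩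
  filter_upwards [hA, hK21, hn, hK1.1, hr] with k g1 g3 g4 g7 g8 w hw g6
  obtain ⟨a1, a2, a3, a4, a5, a6⟩ := wnC_agree l L k w hw
  have hP : PdM (A k w.2) := g1 w.2 a2
  have hr0 : 0 < r k := (S.dl_pos 1 k).trans_le g8
  have n1 : ∀ p, 0 ≤ 1 + Jq (r k) (A k w.2) p z z := fun p => add_nonneg zero_le_one (J_nn _ hP p z)
  rw [abs_of_nonneg (n1 _), abs_of_nonneg (n1 _)] at g6
  have b1 : 1 + Jq (r k) (A k w.2) (Q.v k ((L k).p.π w.2)) z z ≤ cQ M D * K2 k ^ (2 * D) *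
      (1 + Jq (r k) (A k w.2) (l.F k ((L k).p.π w.2) (l.Y.v k ((L k).p.π w.2))) z z) :=
    J_comp hP hr0 g3 _ _ (fun i => near_r (g4 _ a3 i).1 g8 g3) z
  have b2 : 1 + Jq (r k) (A k w.2) (l.F k w.1 (l.Y.v k w.1)) z z ≤ cQ M D * K2 k ^ (2 * D) *
      (1 + Jq (r k) (A k w.2) (Q.v k w.1) z z) :=
    J_comp hP hr0 g3 _ _ (fun i => near_r (g4 _ a1 i).2 g8 g3) z
  have c0 : 0 ≤ cQ M D * K2 k ^ (2 * D) := mul_nonneg (zero_le_one.trans (cQ_one M D)) (pow_nonneg (by linarith) _)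
  have b3 := mul_le_mul_of_nonneg_left (g6.trans (mul_le_mul_of_nonneg_left b2 g7)) c0
  refine (b1.trans b3).trans (le_of_eq ?_)
  ring

variable (hL : Nul S (fun k => (L k).leak (l.win c k)))
include hL

/-- FORMS of radius `r`: at the old point not larger than at the point of the copy -/
theorem cplR_phi : ∃ K' : ℕ → ℝ, S.Sub K' ∧ Typ (S := (cpl L (wnC l c)).sp) (fun k w =>
      phi (r k) (A k w.2) (Q.v k w.1) ≤ K' k * phi (r k) (A k w.2) (Q.v k ((L k).p.π w.2))) := by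
  obtain ⟨K1, hK1, hT⟩ := cpl_pol l L hL (D := D + D) (fun k w p => phi (r k) (A k w) p)
    (Eventually.of_forall fun k w _ => phi_mem _ _) (κ := fun _ => 1) (S.Sub_const zero_le_one) (by
      filter_upwards [hm] with k hk w w' hw hw' hZ hV hLa _ p
      rw [hk w w' hw hw' hZ hV hLa, one_mul]) h0 h1
  obtain ⟨K2, hK2, hK21, hn⟩ := pt_near l
  refine ⟨fun k => cM M D (K2 k) * (K1 k * cM M D (K2 k)), (cM_Sub M D hK2 hK21).mul
    (hK1.mul (cM_Sub M D hK2 hK21)), hT.mono ?_⟩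
  filter_upwards [hA, hK21, hn, hK1.1, hr] with k g1 g3 g4 g7 g8 w hw g6
  obtain ⟨a1, a2, a3, a4, a5, a6⟩ := wnC_agree l L k w hw
  have hP : PdM (A k w.2) := g1 w.2 a2
  have hr0 : 0 < r k := (S.dl_pos 1 k).trans_le g8
  rw [abs_of_nonneg (phi_nonneg _ (fun x => hP.nonneg x) _), abs_of_nonneg (phi_nonneg _ (fun x => hP.nonneg x) _)] at g6
  have b1 : phi (r k) (A k w.2) (Q.v k w.1) ≤ cM M D (K2 k) * phi (r k) (A k w.2)
      (l.F k w.1 (l.Y.v k w.1)) := phi_comp (A k w.2) hP (r k) (r k) (K2 k) hr0 hr0.le g3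
    (l.F k w.1 (l.Y.v k w.1)) (Q.v k w.1) (fun i => near_r (g4 _ a1 i).1 g8 g3)
  have b2 : phi (r k) (A k w.2) (l.F k ((L k).p.π w.2) (l.Y.v k ((L k).p.π w.2))) ≤ cM M D (K2 k) *
      phi (r k) (A k w.2) (Q.v k ((L k).p.π w.2)) := phi_comp (A k w.2) hP (r k) (r k) (K2 k) hr0 hr0.le g3
    (Q.v k ((L k).p.π w.2)) (l.F k ((L k).p.π w.2) (l.Y.v k ((L k).p.π w.2)))
    (fun i => near_r (g4 _ a3 i).2 g8 g3)
  have b3 := mul_le_mul_of_nonneg_left (g6.trans (mul_le_mul_of_nonneg_left b2 g7)) (zero_le_one.trans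
    (cM_one M D g3))
  refine (b1.trans b3).trans (le_of_eq ?_)
  rw [mul_assoc, mul_assoc]

/-- GRADIENTS of radius `r`: at the old point not larger than at the point of the copy -/
theorem cplR_Ju (z : Fin M) : ∃ K' : ℕ → ℝ, S.Sub K' ∧ Typ (S := (cpl L (wnC l c)).sp) (fun k w =>
      1 + Jq (r k) (A k w.2) (Q.v k w.1) z z ≤
        K' k * (1 + Jq (r k) (A k w.2) (Q.v k ((L k).p.π w.2)) z z)) := by
  obtain ⟨K1, hK1, hT⟩ := cpl_pol l L hL (D := D + D) (fun k w p => 1 + Jq (r k) (A k w) p z z)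
    (Eventually.of_forall fun k w _ => J_mem _ _ z) (κ := fun _ => 1) (S.Sub_const zero_le_one) (by
      filter_upwards [hm] with k hk w w' hw hw' hZ hV hLa _ p
      rw [hk w w' hw hw' hZ hV hLa, one_mul]) h0 h1
  obtain ⟨K2, hK2, hK21, hn⟩ := pt_near l
  refine ⟨fun k => cQ M D * K2 k ^ (2 * D) * (K1 k * (cQ M D * K2 k ^ (2 * D))),
    (cJ_Sub hK2 hK21).mul (hK1.mul (cJ_Sub hK2 hK21)), hT.mono ?_⟩
  filter_upwards [hA, hK21, hn, hK1.1, hr] with k g1 g3 g4 g7 g8 w hw g6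
  obtain ⟨a1, a2, a3, a4, a5, a6⟩ := wnC_agree l L k w hw
  have hP : PdM (A k w.2) := g1 w.2 a2
  have hr0 : 0 < r k := (S.dl_pos 1 k).trans_le g8
  have n1 : ∀ p, 0 ≤ 1 + Jq (r k) (A k w.2) p z z := fun p => add_nonneg zero_le_one (J_nn _ hP p z)
  rw [abs_of_nonneg (n1 _), abs_of_nonneg (n1 _)] at g6
  have b1 : 1 + Jq (r k) (A k w.2) (Q.v k w.1) z z ≤ cQ M D * K2 k ^ (2 * D) *
      (1 + Jq (r k) (A k w.2) (l.F k w.1 (l.Y.v k w.1)) z z) :=
    J_comp hP hr0 g3 _ _ (fun i => near_r (g4 _ a1 i).1 g8 g3) z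
  have b2 : 1 + Jq (r k) (A k w.2) (l.F k ((L k).p.π w.2) (l.Y.v k ((L k).p.π w.2))) z z ≤
      cQ M D * K2 k ^ (2 * D) * (1 + Jq (r k) (A k w.2) (Q.v k ((L k).p.π w.2)) z z) :=
    J_comp hP hr0 g3 _ _ (fun i => near_r (g4 _ a3 i).2 g8 g3) z
  have c0 : 0 ≤ cQ M D * K2 k ^ (2 * D) := mul_nonneg (zero_le_one.trans (cQ_one M D)) (pow_nonneg (by linarith) _)
  have b3 := mul_le_mul_of_nonneg_left (g6.trans (mul_le_mul_of_nonneg_left b2 g7)) c0
  refine (b1.trans b3).trans (le_of_eq ?_)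
  ring

end

end

end Pool.Agent.Helper81.CP3
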